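import Pool.Agent.N520.RO.Inst

/-!
# RO/INST: `O(n + 1, 1)` and `U(n + 1, 1)` are rank one groups
-/

set_option autoImplicit false

open Set Filter Topology Matrix

namespace Pool.Agent.N607.RO

open Pool.Agent.N520.RO

noncomputable section

variable {𝕜 : Type} [RCLike 𝕜] {n : ℕ}

/-! ### the matrices -/

theorem lor_mul_lor : lor 𝕜 n * lor 𝕜 n = 1 := by
  unfold lor
  rw [Matrix.diagonal_mul_diagonal, ← Matrix.diagonal_one]
  congr 1
  funext i
  by_cases h : i = 0 <;> simp [h]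

theorem boost_mulVec (t : ℝ) (x : Fin (n + 2) → 𝕜) (i : Fin (n + 2)) :
    (boostM 𝕜 n t *ᵥ x) i = if i = 0 then (Real.cosh t : 𝕜) * x 0 + (Real.sinh t : 𝕜) * x 1
      else if i = 1 then (Real.sinh t : 𝕜) * x 0 + (Real.cosh t : 𝕜) * x 1 else x i := by
  have h1 : (1 : Fin (n + 2)) ≠ 0 := by simp
  rw [Matrix.mulVec, dotProduct, Fin.sum_univ_succ, Fin.sum_univ_succ]
  have h2 : ∀ j : Fin n, j.succ.succ ≠ (1 : Fin (n + 2)) := by
    intro j h
    have := congrArg Fin.val h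
    simp at this
  have h3 : ∀ j : Fin n, j.succ.succ ≠ (0 : Fin (n + 2)) := fun j => Fin.succ_ne_zero _
  rw [Fin.succ_zero_eq_one]
  by_cases hi0 : i = 0
  · subst hi0
    have e : ∀ j : Fin n, boostM 𝕜 n t 0 j.succ.succ * x j.succ.succ = 0 := by
      intro j
      have h4 : (0 : Fin (n + 2)) ≠ j.succ.succ := (h3 j).symm
      simp [boostM, h2 j, h3 j, h4]
    rw [Finset.sum_congr rfl fun j _ => e j, Finset.sum_const_zero, add_zero, if_pos rfl]
    simp [boostM, h1]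
  · by_cases hi1 : i = 1
    · subst hi1
      have e : ∀ j : Fin n, boostM 𝕜 n t 1 j.succ.succ * x j.succ.succ = 0 := by
        intro j
        have h4 : (1 : Fin (n + 2)) ≠ j.succ.succ := (h2 j).symm
        simp [boostM, h2 j, h3 j, h4]
      rw [Finset.sum_congr rfl fun j _ => e j, Finset.sum_const_zero, add_zero, if_neg h1,
        if_pos rfl]
      simp [boostM, h1]
    · rw [if_neg hi0, if_neg hi1]
      have e0 : boostM 𝕜 n t i 0 = 0 := by simp [boostM, hi0, hi1]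
      have e1 : boostM 𝕜 n t i 1 = 0 := by simp [boostM, hi0, hi1]
      rw [e0, e1, zero_mul, zero_mul, zero_add, zero_add]
      obtain ⟨j, rfl⟩ := Fin.exists_succ_eq.2 hi0
      have hj : j ≠ 0 := by
        rintro rfl
        exact hi1 Fin.succ_zero_eq_one
      obtain ⟨k, rfl⟩ := Fin.exists_succ_eq.2 hj
      rw [Finset.sum_eq_single k]
      · simp [boostM, h2 k, h3 k]
      · intro l _ hl
        have h5 : k.succ.succ ≠ l.succ.succ := by
          intro h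
          exact hl (Fin.succ_injective _ (Fin.succ_injective _ h)).symm
        simp [boostM, h2 k, h3 k, h5]
      · intro h
        exact absurd (Finset.mem_univ _) h

theorem ext_mulVec {M N : Matrix (Fin (n + 2)) (Fin (n + 2)) 𝕜}
    (h : ∀ x : Fin (n + 2) → 𝕜, M *ᵥ x = N *ᵥ x) : M = N := by
  ext i j
  have h1 := congrFun (h (Pi.single j 1)) i
  rw [Matrix.mulVec_single_one, Matrix.mulVec_single_one] at h1
  exact h1

theorem boost_add (s t : ℝ) : boostM 𝕜 n s * boostM 𝕜 n t = boostM 𝕜 n (s + t) := by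
  have h1 : (1 : Fin (n + 2)) ≠ 0 := by simp
  apply ext_mulVec
  intro x
  rw [← Matrix.mulVec_mulVec]
  funext i
  simp only [boost_mulVec, if_true, h1, if_false]
  by_cases hi0 : i = 0
  · simp only [if_pos hi0, Real.cosh_add, Real.sinh_add]
    push_cast
    ring
  · simp only [if_neg hi0]
    by_cases hi1 : i = 1
    · simp only [if_pos hi1, Real.cosh_add, Real.sinh_add]
      push_cast
      ring
    · simp only [if_neg hi1]

theorem boost_zero : boostM 𝕜 n 0 = 1 := by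
  have h1 : (1 : Fin (n + 2)) ≠ 0 := by simp
  apply ext_mulVec
  intro x
  funext i
  rw [boost_mulVec, Matrix.one_mulVec, Real.cosh_zero, Real.sinh_zero]
  by_cases hi0 : i = 0
  · rw [if_pos hi0, hi0]; simp
  · rw [if_neg hi0]
    by_cases hi1 : i = 1
    · rw [if_pos hi1, hi1]; simp
    · rw [if_neg hi1]

theorem boost_conj (t : ℝ) : (boostM 𝕜 n t)ᴴ = boostM 𝕜 n t := by
  ext i j
  rw [Matrix.conjTranspose_apply]
  unfold boostM
  have e1 : (j = 0 ∧ i = 0 ∨ j = 1 ∧ i = 1) ↔ (i = 0 ∧ j = 0 ∨ i = 1 ∧ j = 1) := by tauto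
  have e2 : (j = 0 ∧ i = 1 ∨ j = 1 ∧ i = 0) ↔ (i = 0 ∧ j = 1 ∨ i = 1 ∧ j = 0) := by tauto
  have e3 : (j = i) ↔ (i = j) := eq_comm
  simp only [e1, e2, e3]
  split_ifs <;> simp

theorem boost_lor (t : ℝ) : boostM 𝕜 n t * lor 𝕜 n = lor 𝕜 n * boostM 𝕜 n (-t) := by
  have h1 : (1 : Fin (n + 2)) ≠ 0 := by simp
  apply ext_mulVec
  intro x
  rw [← Matrix.mulVec_mulVec, ← Matrix.mulVec_mulVec]
  funext i
  unfold lor
  rw [boost_mulVec]
  simp only [Matrix.mulVec_diagonal, boost_mulVec, if_true, h1, if_false, Real.cosh_neg,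
    Real.sinh_neg]
  by_cases hi0 : i = 0
  · simp only [if_pos hi0]
    push_cast
    ring
  · simp only [if_neg hi0]
    by_cases hi1 : i = 1
    · simp only [if_pos hi1]
      push_cast
      ring
    · simp only [if_neg hi1]

theorem boost_mem (t : ℝ) :
    (boostM 𝕜 n t)ᴴ * lor 𝕜 n * boostM 𝕜 n t = lor 𝕜 n := by
  rw [boost_conj, boost_lor, Matrix.mul_assoc, boost_add, neg_add_cancel, boost_zero,
    Matrix.mul_one]

/-- the boosts -/
def TT (t : ℝ) : LorGroup 𝕜 n :=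
  ⟨⟨boostM 𝕜 n t, boostM 𝕜 n (-t), by rw [boost_add, add_neg_cancel, boost_zero],
    by rw [boost_add, neg_add_cancel, boost_zero]⟩, boost_mem t⟩

theorem TT_boost : IsBoost 𝕜 n TT := fun _ => rfl

theorem mat_TT (t : ℝ) : mat (TT t : LorGroup 𝕜 n) = boostM 𝕜 n t := rfl

/-- the Weyl element as a matrix -/
def wM (𝕜 : Type) [RCLike 𝕜] (n : ℕ) : Matrix (Fin (n + 2)) (Fin (n + 2)) 𝕜 :=
  Matrix.diagonal fun i => if i = 1 then -1 else 1

theorem wM_sq : wM 𝕜 n * wM 𝕜 n = 1 := by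
  unfold wM
  rw [Matrix.diagonal_mul_diagonal, ← Matrix.diagonal_one]
  congr 1
  funext i
  by_cases h : i = 1 <;> simp [h]

theorem wM_mem : (wM 𝕜 n)ᴴ * lor 𝕜 n * wM 𝕜 n = lor 𝕜 n := by
  unfold wM lor
  rw [Matrix.diagonal_conjTranspose, Matrix.diagonal_mul_diagonal, Matrix.diagonal_mul_diagonal]
  congr 1
  funext i
  by_cases h : i = 1 <;> by_cases h' : i = 0 <;> simp [h, h']

/-- the Weyl element -/
def ww : LorGroup 𝕜 n := ⟨⟨wM 𝕜 n, wM 𝕜 n, wM_sq, wM_sq⟩, wM_mem⟩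

theorem mat_ww : mat (ww : LorGroup 𝕜 n) = wM 𝕜 n := rfl

theorem boost_wM (t : ℝ) : boostM 𝕜 n t * wM 𝕜 n = wM 𝕜 n * boostM 𝕜 n (-t) := by
  have h1 : (1 : Fin (n + 2)) ≠ 0 := by simp
  have h01 : (0 : Fin (n + 2)) ≠ 1 := h1.symm
  apply ext_mulVec
  intro x
  rw [← Matrix.mulVec_mulVec, ← Matrix.mulVec_mulVec]
  funext i
  unfold wM
  rw [boost_mulVec]
  simp only [Matrix.mulVec_diagonal, boost_mulVec, if_true, h01, if_false, Real.cosh_neg,
    Real.sinh_neg]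
  by_cases hi0 : i = 0
  · simp only [hi0, if_true, h01, if_false]
    push_cast
    ring
  · simp only [if_neg hi0]
    by_cases hi1 : i = 1
    · simp only [if_pos hi1]
      push_cast
      ring
    · simp only [if_neg hi1]

/-! ### the action -/

theorem act_mul (g h : LorGroup 𝕜 n) (x : Fin (n + 2) → 𝕜) :
    mat (g * h) *ᵥ x = mat g *ᵥ (mat h *ᵥ x) := by
  rw [Matrix.mulVec_mulVec]
  rfl

theorem act_one (x : Fin (n + 2) → 𝕜) : mat (1 : LorGroup 𝕜 n) *ᵥ x = x := Matrix.one_mulVec x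

theorem act_inv_act (g : LorGroup 𝕜 n) (x : Fin (n + 2) → 𝕜) :
    mat g⁻¹ *ᵥ (mat g *ᵥ x) = x := by
  rw [← act_mul, inv_mul_cancel, act_one]

theorem act_act_inv (g : LorGroup 𝕜 n) (x : Fin (n + 2) → 𝕜) :
    mat g *ᵥ (mat g⁻¹ *ᵥ x) = x := by
  rw [← act_mul, mul_inv_cancel, act_one]

/-! ### the form -/

/-- the hermitian form -/
def hf (x y : Fin (n + 2) → 𝕜) : 𝕜 := star x ⬝ᵥ (lor 𝕜 n *ᵥ y)

theorem hf_act (g : LorGroup 𝕜 n) (x y : Fin (n + 2) → 𝕜) :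
    hf (mat g *ᵥ x) (mat g *ᵥ y) = hf x y := by
  have hg : (mat g)ᴴ * lor 𝕜 n * mat g = lor 𝕜 n := g.2
  unfold hf
  rw [Matrix.star_mulVec, ← Matrix.dotProduct_mulVec, Matrix.mulVec_mulVec, Matrix.mulVec_mulVec,
    hg]

theorem hf_apply (x y : Fin (n + 2) → 𝕜) :
    hf x y = -(star (x 0) * y 0) + ∑ i : Fin (n + 1), star (x i.succ) * y i.succ := by
  unfold hf lor
  rw [dotProduct, Fin.sum_univ_succ]
  simp only [Matrix.mulVec_diagonal, Pi.star_apply, if_true, Fin.succ_ne_zero, if_false, one_mul]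
  ring

theorem hf_self (x : Fin (n + 2) → 𝕜) :
    hf x x = ((-‖x 0‖ ^ 2 + ∑ i : Fin (n + 1), ‖x i.succ‖ ^ 2 : ℝ) : 𝕜) := by
  rw [hf_apply]
  have h : ∀ a : 𝕜, star a * a = ((‖a‖ ^ 2 : ℝ) : 𝕜) := by
    intro a
    have := RCLike.conj_mul a
    rw [RCLike.ofReal_pow]
    exact this
  simp only [h]
  push_cast
  ring

theorem hf_add_left (x y z : Fin (n + 2) → 𝕜) : hf (x + y) z = hf x z + hf y z := by
  unfold hf
  rw [star_add, add_dotProduct]

theorem hf_add_right (x y z : Fin (n + 2) → 𝕜) : hf x (y + z) = hf x y + hf x z := by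
  unfold hf
  rw [Matrix.mulVec_add, dotProduct_add]

theorem hf_sub_left (x y z : Fin (n + 2) → 𝕜) : hf (x - y) z = hf x z - hf y z := by
  unfold hf
  rw [star_sub, sub_dotProduct]

theorem hf_sub_right (x y z : Fin (n + 2) → 𝕜) : hf x (y - z) = hf x y - hf x z := by
  unfold hf
  rw [Matrix.mulVec_sub, dotProduct_sub]

theorem hf_smul_left (c : 𝕜) (x y : Fin (n + 2) → 𝕜) : hf (c • x) y = star c * hf x y := by
  unfold hf
  rw [star_smul, smul_dotProduct, smul_eq_mul]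

theorem hf_smul_right (c : 𝕜) (x y : Fin (n + 2) → 𝕜) : hf x (c • y) = c * hf x y := by
  unfold hf
  rw [Matrix.mulVec_smul, dotProduct_smul, smul_eq_mul]

theorem hf_star (x y : Fin (n + 2) → 𝕜) : hf y x = star (hf x y) := by
  rw [hf_apply, hf_apply, star_add, star_neg, star_mul, star_star, star_sum]
  congr 1
  refine Finset.sum_congr rfl fun i _ => ?_
  rw [star_mul, star_star]

/-- the basis vectors -/
def e0 (𝕜 : Type) [RCLike 𝕜] (n : ℕ) : Fin (n + 2) → 𝕜 := Pi.single 0 1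
def e1 (𝕜 : Type) [RCLike 𝕜] (n : ℕ) : Fin (n + 2) → 𝕜 := Pi.single 1 1

theorem xi_eq : xi 𝕜 n = e0 𝕜 n + e1 𝕜 n := rfl

theorem e0_zero : e0 𝕜 n 0 = 1 := Pi.single_eq_same _ _
theorem e0_succ (i : Fin (n + 1)) : e0 𝕜 n i.succ = 0 := Pi.single_eq_of_ne (Fin.succ_ne_zero i) _
theorem e1_zero : e1 𝕜 n 0 = 0 := Pi.single_eq_of_ne (by simp) _
theorem e1_one : e1 𝕜 n 1 = 1 := Pi.single_eq_same _ _

theorem e1_succ_succ (i : Fin n) : e1 𝕜 n i.succ.succ = 0 := by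
  refine Pi.single_eq_of_ne ?_ _
  intro h
  have := congrArg Fin.val h
  simp at this

theorem e1_succ (i : Fin (n + 1)) : e1 𝕜 n i.succ = if i = 0 then 1 else 0 := by
  by_cases h : i = 0
  · subst h
    rw [if_pos rfl, Fin.succ_zero_eq_one]
    exact e1_one
  · rw [if_neg h]
    obtain ⟨j, rfl⟩ := Fin.exists_succ_eq.2 h
    exact e1_succ_succ j

theorem hf_e0 (y : Fin (n + 2) → 𝕜) : hf (e0 𝕜 n) y = -y 0 := by
  rw [hf_apply, e0_zero]
  simp [e0_succ]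

theorem hf_e1 (y : Fin (n + 2) → 𝕜) : hf (e1 𝕜 n) y = y 1 := by
  rw [hf_apply, e1_zero, Finset.sum_eq_single 0]
  · rw [e1_succ, if_pos rfl, Fin.succ_zero_eq_one]
    simp
  · intro i _ hi
    rw [e1_succ, if_neg hi]
    simp
  · intro h
    exact absurd (Finset.mem_univ _) h

theorem hf_xi (y : Fin (n + 2) → 𝕜) : hf (xi 𝕜 n) y = -y 0 + y 1 := by
  rw [xi_eq, hf_add_left, hf_e0, hf_e1]

theorem xi_zero : xi 𝕜 n 0 = 1 := by
  rw [xi_eq, Pi.add_apply, e0_zero, e1_zero, add_zero]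

theorem xi_one : xi 𝕜 n 1 = 1 := by
  rw [xi_eq, Pi.add_apply, e1_one, ← Fin.succ_zero_eq_one, e0_succ, zero_add]

theorem xi_succ_succ (i : Fin n) : xi 𝕜 n i.succ.succ = 0 := by
  rw [xi_eq, Pi.add_apply, e0_succ, e1_succ_succ, zero_add]

theorem hf_xi_xi : hf (xi 𝕜 n) (xi 𝕜 n) = 0 := by
  rw [hf_xi, xi_zero, xi_one]
  simp

theorem xi_ne : xi 𝕜 n ≠ 0 := by
  intro h
  have := congrFun h 0
  rw [xi_zero] at this
  exact one_ne_zero this

/-- a null vector orthogonal to `xi` is a multiple of `xi` -/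
theorem eq_smul_xi {y : Fin (n + 2) → 𝕜} (h1 : hf y y = 0) (h2 : hf (xi 𝕜 n) y = 0) :
    y = y 0 • xi 𝕜 n := by
  rw [hf_xi] at h2
  have h3 : y 1 = y 0 := by linear_combination h2
  rw [hf_self, ← RCLike.ofReal_zero, RCLike.ofReal_inj, Fin.sum_univ_succ,
    Fin.succ_zero_eq_one, h3] at h1
  have h4 : ∑ i : Fin n, ‖y i.succ.succ‖ ^ 2 = 0 := by linarith
  have h5 := (Finset.sum_eq_zero_iff_of_nonneg fun i _ => sq_nonneg ‖y (Fin.succ i.succ)‖).1 h4
  funext i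
  rw [Pi.smul_apply, smul_eq_mul]
  by_cases hi0 : i = 0
  · rw [hi0, xi_zero, mul_one]
  · obtain ⟨j, rfl⟩ := Fin.exists_succ_eq.2 hi0
    by_cases hj : j = 0
    · rw [hj, Fin.succ_zero_eq_one, xi_one, mul_one, h3]
    · obtain ⟨k, rfl⟩ := Fin.exists_succ_eq.2 hj
      rw [xi_succ_succ, mul_zero]
      have h6 := h5 k (Finset.mem_univ _)
      exact norm_eq_zero.1 (pow_eq_zero_iff (two_ne_zero)|>.1 h6)

theorem boost_e0 (t : ℝ) : boostM 𝕜 n t *ᵥ e0 𝕜 n =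
    (Real.cosh t : 𝕜) • e0 𝕜 n + (Real.sinh t : 𝕜) • e1 𝕜 n := by
  funext i
  rw [boost_mulVec, Pi.add_apply, Pi.smul_apply, Pi.smul_apply, smul_eq_mul, smul_eq_mul, e0_zero,
    ← Fin.succ_zero_eq_one, e0_succ]
  by_cases hi0 : i = 0
  · rw [if_pos hi0, hi0, e0_zero, e1_zero]
  · obtain ⟨j, rfl⟩ := Fin.exists_succ_eq.2 hi0
    rw [if_neg hi0, e0_succ, e1_succ]
    by_cases hj : j = 0
    · rw [hj, if_pos rfl, if_pos rfl]
      ring
    · rw [if_neg hj, if_neg fun h => hj (Fin.succ_injective _ h)]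
      ring

/-- transitivity on the hyperboloid -/
theorem trans (ha : S_INA) (x : Fin (n + 2) → 𝕜) (hx : hf x x = -1) :
    ∃ κ : LorGroup 𝕜 n, (∀ i j, ‖mat κ i j‖ ≤ 1) ∧ ∃ t : ℝ,
      mat (κ * TT t) *ᵥ e0 𝕜 n = x := by
  have hx' : -‖x 0‖ ^ 2 + ∑ i : Fin (n + 1), ‖x i.succ‖ ^ 2 = -1 := by
    rw [hf_self] at hx
    have h1 : (((-‖x 0‖ ^ 2 + ∑ i : Fin (n + 1), ‖x i.succ‖ ^ 2 : ℝ)) : 𝕜) =
        ((-1 : ℝ) : 𝕜) := by rw [hx]; simp
    exact RCLike.ofReal_inj.1 h1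
  set R : ℝ := ∑ i : Fin (n + 1), ‖x i.succ‖ ^ 2 with hR
  have hR0 : 0 ≤ R := Finset.sum_nonneg fun i _ => sq_nonneg _
  have hx0 : ‖x 0‖ = √(1 + R) := by
    have h1 : 1 + R = ‖x 0‖ ^ 2 := by linarith
    rw [h1, Real.sqrt_sq (norm_nonneg _)]
  have hpos : 0 < ‖x 0‖ := by
    rw [hx0]
    exact Real.sqrt_pos.2 (by linarith)
  have hx0' : ((‖x 0‖ : ℝ) : 𝕜) ≠ 0 := RCLike.ofReal_ne_zero.2 hpos.ne'
  obtain ⟨z, hz1, hz2⟩ : ∃ z : Fin (n + 1) → 𝕜, ∑ i, ‖z i‖ ^ 2 = 1 ∧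
      ∀ i, ((√R : ℝ) : 𝕜) * z i = x i.succ := by
    by_cases h0 : R = 0
    · refine ⟨Pi.single 0 1, ?_, ?_⟩
      · rw [Finset.sum_eq_single 0]
        · simp
        · intro i _ hi
          rw [Pi.single_eq_of_ne hi]
          simp
        · intro h
          exact absurd (Finset.mem_univ _) h
      · intro i
        rw [h0, Real.sqrt_zero, RCLike.ofReal_zero, zero_mul]
        have h5 := (Finset.sum_eq_zero_iff_of_nonneg fun i _ => sq_nonneg ‖x (Fin.succ i)‖).1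
          (hR ▸ h0) i (Finset.mem_univ _)
        exact (norm_eq_zero.1 (pow_eq_zero_iff (two_ne_zero)|>.1 h5)).symm
    · have hRp : 0 < R := lt_of_le_of_ne hR0 (Ne.symm h0)
      have hs : 0 < √R := Real.sqrt_pos.2 hRp
      have hs' : ((√R : ℝ) : 𝕜) ≠ 0 := RCLike.ofReal_ne_zero.2 hs.ne'
      refine ⟨fun i => x i.succ / ((√R : ℝ) : 𝕜), ?_, fun i => mul_div_cancel₀ _ hs'⟩
      have h1 : ∀ i : Fin (n + 1), ‖x i.succ / ((√R : ℝ) : 𝕜)‖ ^ 2 = ‖x i.succ‖ ^ 2 / R := by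
        intro i
        rw [norm_div, RCLike.norm_ofReal, abs_of_pos hs, div_pow, Real.sq_sqrt hR0]
      rw [Finset.sum_congr rfl fun i _ => h1 i, ← Finset.sum_div, ← hR, div_self h0]
  obtain ⟨κ, hκ, hκ0, hκ1⟩ := ha 𝕜 n (x 0 / ((‖x 0‖ : ℝ) : 𝕜)) z (by
    rw [norm_div, RCLike.norm_ofReal, abs_norm, div_self hpos.ne']) hz1
  refine ⟨κ, hκ, Real.arsinh (√R), ?_⟩
  have hκ0' : mat κ *ᵥ e0 𝕜 n = Pi.single 0 (x 0 / ((‖x 0‖ : ℝ) : 𝕜)) := hκ0
  have hκ1' : mat κ *ᵥ e1 𝕜 n = Fin.cons 0 z := hκ1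
  rw [act_mul, mat_TT, boost_e0, Matrix.mulVec_add, Matrix.mulVec_smul, Matrix.mulVec_smul, hκ0',
    hκ1', Real.sinh_arsinh, Real.cosh_arsinh, Real.sq_sqrt hR0, ← hx0]
  funext i
  rw [Pi.add_apply, Pi.smul_apply, Pi.smul_apply, smul_eq_mul, smul_eq_mul]
  refine Fin.cases ?_ (fun j => ?_) i
  · rw [Pi.single_eq_same, Fin.cons_zero, mul_zero, add_zero, mul_div_cancel₀ _ hx0']
  · rw [Pi.single_eq_of_ne (Fin.succ_ne_zero j), mul_zero, zero_add, Fin.cons_succ, hz2]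

/-- elements fixing the base point -/
theorem fix {g : LorGroup 𝕜 n} (hg : mat g *ᵥ e0 𝕜 n = e0 𝕜 n) (i j : Fin (n + 2)) :
    ‖mat g i j‖ ≤ 1 := by
  have hcol : ∀ j, mat g *ᵥ Pi.single j 1 = fun i => mat g i j := fun j => by
    rw [Matrix.mulVec_single_one]
    rfl
  by_cases hj : j = 0
  · have h1 := congrFun hg i
    unfold e0 at h1
    rw [hcol 0] at h1
    rw [hj]
    have h2 : mat g i 0 = (Pi.single 0 1 : Fin (n + 2) → 𝕜) i := h1
    rw [h2]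
    by_cases hi : i = 0
    · rw [hi, Pi.single_eq_same]; simp
    · rw [Pi.single_eq_of_ne hi]; simp
  · obtain ⟨k, rfl⟩ := Fin.exists_succ_eq.2 hj
    have h1 : mat g 0 k.succ = 0 := by
      have h2 := hf_act g (e0 𝕜 n) (Pi.single k.succ 1)
      rw [hg, hf_e0, hf_e0, hcol, Pi.single_eq_of_ne (Fin.succ_ne_zero k).symm] at h2
      exact neg_inj.1 h2
    have h3 := hf_act g (Pi.single k.succ (1 : 𝕜)) (Pi.single k.succ 1)
    rw [hcol, hf_self, hf_self, RCLike.ofReal_inj] at h3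
    have h4 : ∑ i : Fin (n + 1), ‖(Pi.single k.succ (1 : 𝕜) : Fin (n + 2) → 𝕜) i.succ‖ ^ 2 =
        1 := by
      rw [Finset.sum_eq_single k]
      · rw [Pi.single_eq_same]; simp
      · intro l _ hl
        rw [Pi.single_eq_of_ne fun h => hl (Fin.succ_injective _ h)]
        simp
      · intro h
        exact absurd (Finset.mem_univ _) h
    rw [h4, Pi.single_eq_of_ne (Fin.succ_ne_zero k).symm] at h3
    have h5 : ∑ i : Fin (n + 1), ‖mat g i.succ k.succ‖ ^ 2 = 1 := by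
      have h6 : ‖mat g 0 k.succ‖ = 0 := by rw [h1, norm_zero]
      rw [h6, norm_zero] at h3
      linarith
    by_cases hi : i = 0
    · rw [hi, h1]; simp
    · obtain ⟨l, rfl⟩ := Fin.exists_succ_eq.2 hi
      have h7 : ‖mat g l.succ k.succ‖ ^ 2 ≤ 1 := by
        rw [← h5]
        exact Finset.single_le_sum (f := fun i : Fin (n + 1) => ‖mat g i.succ k.succ‖ ^ 2)
          (fun i _ => sq_nonneg _) (Finset.mem_univ l)
      exact (sq_le_one_iff₀ (norm_nonneg _)).1 h7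

variable (𝕜 n) in
/-- the stabilizer of the line of `xi` -/
def PP : Subgroup (LorGroup 𝕜 n) where
  carrier := {g | ∃ a : 𝕜, mat g *ᵥ xi 𝕜 n = a • xi 𝕜 n}
  mul_mem' := by
    rintro g h ⟨a, ha⟩ ⟨b, hb⟩
    exact ⟨b * a, by rw [act_mul, hb, Matrix.mulVec_smul, ha, smul_smul]⟩
  one_mem' := ⟨1, by rw [act_one, one_smul]⟩
  inv_mem' := by
    rintro g ⟨a, ha⟩
    have ha0 : a ≠ 0 := by
      rintro rfl
      rw [zero_smul] at ha
      have h1 := act_inv_act g (xi 𝕜 n)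
      rw [ha, Matrix.mulVec_zero] at h1
      exact xi_ne h1.symm
    refine ⟨a⁻¹, ?_⟩
    have h1 := act_inv_act g (xi 𝕜 n)
    rw [ha, Matrix.mulVec_smul] at h1
    rw [← h1, smul_smul, inv_mul_cancel₀ ha0, one_smul, h1]

theorem mem_PP {g : LorGroup 𝕜 n} : g ∈ PP 𝕜 n ↔ ∃ a : 𝕜, mat g *ᵥ xi 𝕜 n = a • xi 𝕜 n :=
  Iff.rfl

theorem ww_xi : mat (ww : LorGroup 𝕜 n) *ᵥ xi 𝕜 n = e0 𝕜 n - e1 𝕜 n := by
  rw [mat_ww]
  funext i
  unfold wM
  rw [Matrix.mulVec_diagonal, Pi.sub_apply, xi_eq, Pi.add_apply]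
  by_cases hi : i = 1
  · rw [if_pos hi, hi, e1_one, ← Fin.succ_zero_eq_one, e0_succ]
    ring
  · rw [if_neg hi]
    by_cases hi0 : i = 0
    · rw [hi0, e1_zero]
      ring
    · obtain ⟨j, rfl⟩ := Fin.exists_succ_eq.2 hi0
      have hj : j ≠ 0 := by
        rintro rfl
        exact hi Fin.succ_zero_eq_one
      rw [e1_succ, if_neg hj]
      ring

theorem mem_KL {g : LorGroup 𝕜 n} (h : ∀ i j, ‖mat g i j‖ ≤ 1) : g ∈ KL 𝕜 n :=
  fun i j => (h i j).trans (by norm_num)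

theorem rankOne (ha : S_INA) (hc : S_INC) (hl : S_INL) :
    RankOne (KL 𝕜 n) (PP 𝕜 n) TT ww where
  compact := hc 𝕜 n
  add s t := Subtype.ext (Units.ext (boost_add s t).symm)
  cartan g := by
    have h1 : hf (mat g *ᵥ e0 𝕜 n) (mat g *ᵥ e0 𝕜 n) = -1 := by
      rw [hf_act, hf_e0, e0_zero]
    obtain ⟨κ, hκ, t, ht⟩ := trans ha _ h1
    refine ⟨κ, mem_KL hκ, t, (κ * TT t)⁻¹ * g, mem_KL fun i j => fix ?_ i j, ?_⟩
    · rw [act_mul, ← ht, act_inv_act]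
    · rw [mul_inv_cancel_left]
  iwasawa g := by
    set y := mat g *ᵥ xi 𝕜 n with hy
    have h1 : hf y y = 0 := by rw [hy, hf_act, hf_xi_xi]
    have hy0 : y ≠ 0 := by
      intro h
      have h2 := act_inv_act g (xi 𝕜 n)
      rw [← hy, h, Matrix.mulVec_zero] at h2
      exact xi_ne h2.symm
    rw [hf_self, ← RCLike.ofReal_zero, RCLike.ofReal_inj] at h1
    have hpos : 0 < ‖y 0‖ := by
      refine lt_of_le_of_ne (norm_nonneg _) fun h => ?_
      rw [← h] at h1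
      have h4 : ∑ i : Fin (n + 1), ‖y i.succ‖ ^ 2 = 0 := by linarith
      have h5 := (Finset.sum_eq_zero_iff_of_nonneg fun i _ => sq_nonneg ‖y (Fin.succ i)‖).1 h4
      apply hy0
      funext i
      refine Fin.cases ?_ (fun j => ?_) i
      · exact norm_eq_zero.1 h.symm
      · exact norm_eq_zero.1 (pow_eq_zero_iff (two_ne_zero)|>.1 (h5 j (Finset.mem_univ _)))
    have hr' : ((‖y 0‖ : ℝ) : 𝕜) ≠ 0 := RCLike.ofReal_ne_zero.2 hpos.ne'
    obtain ⟨κ, hκ, hκ0, hκ1⟩ := ha 𝕜 n (y 0 / ((‖y 0‖ : ℝ) : 𝕜))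
      (fun i => y i.succ / ((‖y 0‖ : ℝ) : 𝕜)) (by
        rw [norm_div, RCLike.norm_ofReal, abs_norm, div_self hpos.ne']) (by
        have h2 : ∀ i : Fin (n + 1), ‖y i.succ / ((‖y 0‖ : ℝ) : 𝕜)‖ ^ 2 =
            ‖y i.succ‖ ^ 2 / ‖y 0‖ ^ 2 := by
          intro i
          rw [norm_div, RCLike.norm_ofReal, abs_norm, div_pow]
        rw [Finset.sum_congr rfl fun i _ => h2 i, ← Finset.sum_div]
        have h3 : ∑ i : Fin (n + 1), ‖y i.succ‖ ^ 2 = ‖y 0‖ ^ 2 := by linarith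
        rw [h3, div_self (pow_ne_zero 2 hpos.ne')])
    have hκ0' : mat κ *ᵥ e0 𝕜 n = Pi.single 0 (y 0 / ((‖y 0‖ : ℝ) : 𝕜)) := hκ0
    have hκ1' : mat κ *ᵥ e1 𝕜 n = Fin.cons 0 (fun i => y i.succ / ((‖y 0‖ : ℝ) : 𝕜)) := hκ1
    have hκy : ((‖y 0‖ : ℝ) : 𝕜) • (mat κ *ᵥ xi 𝕜 n) = y := by
      rw [xi_eq, Matrix.mulVec_add, hκ0', hκ1']
      funext i
      rw [Pi.smul_apply, Pi.add_apply, smul_eq_mul]
      refine Fin.cases ?_ (fun j => ?_) i
      · rw [Pi.single_eq_same, Fin.cons_zero, add_zero, mul_div_cancel₀ _ hr']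
      · rw [Pi.single_eq_of_ne (Fin.succ_ne_zero j), zero_add, Fin.cons_succ,
          mul_div_cancel₀ _ hr']
    refine ⟨κ, mem_KL hκ, κ⁻¹ * g, ⟨((‖y 0‖ : ℝ) : 𝕜), ?_⟩, by rw [mul_inv_cancel_left]⟩
    rw [act_mul, ← hy, ← hκy, Matrix.mulVec_smul, act_inv_act, hκy]
  langlands p hp := hl 𝕜 n TT TT_boost p hp
  bruhat g := by
    by_cases hgP : g ∈ PP 𝕜 n
    · exact Or.inl hgP
    · right
      set y := mat g *ᵥ xi 𝕜 n with hy
      have h1 : hf y y = 0 := by rw [hy, hf_act, hf_xi_xi]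
      have h2 : hf (xi 𝕜 n) y ≠ 0 := by
        intro h
        exact hgP ⟨y 0, hy ▸ eq_smul_xi h1 h⟩
      set lam : 𝕜 := -2 / hf (xi 𝕜 n) y with hlam
      have hlam0 : lam ≠ 0 := div_ne_zero (by simp) h2
      set y' := lam • y with hy'
      have h3 : hf (xi 𝕜 n) y' = -2 := by
        rw [hy', hf_smul_right, hlam, div_mul_cancel₀ _ h2]
      have h3' : hf y' (xi 𝕜 n) = -2 := by
        rw [hf_star (xi 𝕜 n) y', h3]
        simp
      have h4 : hf y' y' = 0 := by rw [hy', hf_smul_left, hf_smul_right, h1, mul_zero, mul_zero]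
      have hst : star (1 / 2 : 𝕜) = 1 / 2 := by simp
      set o : Fin (n + 2) → 𝕜 := (1 / 2 : 𝕜) • (xi 𝕜 n + y') with ho
      set x : Fin (n + 2) → 𝕜 := (1 / 2 : 𝕜) • (xi 𝕜 n - y') with hx
      have hoo : hf o o = -1 := by
        rw [ho, hf_smul_left, hf_smul_right, hf_add_left, hf_add_right, hf_add_right, hf_xi_xi,
          h3, h3', h4, hst]
        ring
      have hxx : hf x x = 1 := by
        rw [hx, hf_smul_left, hf_smul_right, hf_sub_left, hf_sub_right, hf_sub_right, hf_xi_xi,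
          h3, h3', h4, hst]
        ring
      have hox : hf o x = 0 := by
        rw [ho, hx, hf_smul_left, hf_smul_right, hf_add_left, hf_sub_right, hf_sub_right,
          hf_xi_xi, h3, h3', h4, hst]
        ring
      obtain ⟨κ, hκ, t, ht⟩ := trans ha _ hoo
      set g1 := κ * TT t with hg1
      set v := mat g1⁻¹ *ᵥ x with hv
      have hgv : mat g1 *ᵥ v = x := act_act_inv g1 x
      have hv0 : v 0 = 0 := by
        have h5 : hf (e0 𝕜 n) v = 0 := by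
          rw [← hf_act g1, ht, hgv, hox]
        rw [hf_e0] at h5
        exact neg_eq_zero.1 h5
      have hv1 : ∑ i : Fin (n + 1), ‖v i.succ‖ ^ 2 = 1 := by
        have h5 : hf v v = 1 := by rw [← hf_act g1, hgv, hxx]
        rw [hf_self, hv0, ← RCLike.ofReal_one, RCLike.ofReal_inj, norm_zero] at h5
        linarith
      obtain ⟨κ', hκ', hκ0, hκ1⟩ := ha 𝕜 n 1 (fun i => v i.succ) norm_one hv1
      have hκ0' : mat κ' *ᵥ e0 𝕜 n = e0 𝕜 n := hκ0
      have hκ1' : mat κ' *ᵥ e1 𝕜 n = v := by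
        have h5 : mat κ' *ᵥ e1 𝕜 n = Fin.cons 0 fun i => v i.succ := hκ1
        rw [h5]
        funext i
        refine Fin.cases ?_ (fun j => ?_) i
        · rw [Fin.cons_zero, hv0]
        · rw [Fin.cons_succ]
      have hp0 : mat (g1 * κ') *ᵥ e0 𝕜 n = o := by rw [act_mul, hκ0', ht]
      have hp1 : mat (g1 * κ') *ᵥ e1 𝕜 n = x := by rw [act_mul, hκ1', hgv]
      have hpxi : mat (g1 * κ') *ᵥ xi 𝕜 n = xi 𝕜 n := by
        rw [xi_eq, Matrix.mulVec_add, hp0, hp1, ho, hx, xi_eq]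
        funext i
        simp only [Pi.add_apply, Pi.smul_apply, Pi.sub_apply, smul_eq_mul]
        ring
      have hpeta : mat (g1 * κ' * ww) *ᵥ xi 𝕜 n = y' := by
        rw [act_mul, ww_xi, Matrix.mulVec_sub, hp0, hp1, ho, hx]
        funext i
        simp only [Pi.add_apply, Pi.smul_apply, Pi.sub_apply, smul_eq_mul]
        ring
      refine ⟨g1 * κ', ⟨1, by rw [hpxi, one_smul]⟩, (g1 * κ' * ww)⁻¹ * g, ⟨lam⁻¹, ?_⟩, ?_⟩
      · have h6 : y = lam⁻¹ • y' := by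
          rw [hy', smul_smul, inv_mul_cancel₀ hlam0, one_smul]
        rw [act_mul, ← hy, h6, Matrix.mulVec_smul, ← hpeta, act_inv_act]
      · rw [mul_inv_cancel_left]
  weyl := by
    refine Eventually.of_forall fun t => ?_
    have h1 : mat (TT t * ww * TT t : LorGroup 𝕜 n) = wM 𝕜 n := by
      show boostM 𝕜 n t * wM 𝕜 n * boostM 𝕜 n t = wM 𝕜 n
      rw [boost_wM, Matrix.mul_assoc, boost_add, neg_add_cancel, boost_zero, Matrix.mul_one]
    refine mem_KL fun i j => ?_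
    rw [h1]
    unfold wM
    by_cases hij : i = j
    · subst hij
      rw [Matrix.diagonal_apply_eq]
      by_cases hi : i = 1
      · rw [if_pos hi]; simp
      · rw [if_neg hi]; simp
    · rw [Matrix.diagonal_apply_ne _ hij]; simp

/-- **RO/INST** -/
theorem t_inst (ha : S_INA) (hc : S_INC) (hl : S_INL) : S_INST :=
  fun 𝕜 _ n => ⟨KL 𝕜 n, PP 𝕜 n, TT, ww, TT_boost, rankOne ha hc hl⟩

end

end Pool.Agent.N607.RO
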